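import Mathlib

namespace Pool.Agent.Results.MP_32607b_nt.OddPowerSums

open Finset Polynomial

section padic
variable {p : ℕ} [hp : Fact p.Prime]

lemma natCast_isUnit {i : ℕ} (h : ¬ p ∣ i) : IsUnit (i : ℤ_[p]) := by
  rw [PadicInt.isUnit_iff]
  have := (PadicInt.norm_natCast_eq_one_iff (p := p) (n := i)).2 ((Nat.Prime.coprime_iff_not_dvd hp.out).2 h)
  exact this

lemma exists_t (w i : ℕ) (hi : 0 < i) (hi2 : i < p ^ (w + 1)) :
    ∃ t : ℤ_[p], t * i = (p : ℤ_[p]) ^ w := by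
  obtain ⟨e, i', h1, h2⟩ := Nat.exists_eq_pow_mul_and_not_dvd hi.ne' p hp.out.ne_one
  obtain ⟨u, hu⟩ := natCast_isUnit (p := p) h1
  have hew : e ≤ w := by
    have h3 : p ^ e ≤ i := Nat.le_of_dvd hi ⟨i', h2⟩
    have h4 : p ^ e < p ^ (w + 1) := lt_of_le_of_lt h3 hi2
    have := (Nat.pow_lt_pow_iff_right hp.out.one_lt).1 h4
    omega
  refine ⟨(p : ℤ_[p]) ^ (w - e) * ↑u⁻¹, ?_⟩
  rw [h2]
  push_cast
  rw [← hu]
  have : (p : ℤ_[p]) ^ w = (p : ℤ_[p]) ^ (w - e) * (p : ℤ_[p]) ^ e := by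
    rw [← pow_add]; congr 1; omega
  rw [this]
  have h5 : (↑u⁻¹ : ℤ_[p]) * (u : ℤ_[p]) = 1 := by simp
  calc (p : ℤ_[p]) ^ (w - e) * ↑u⁻¹ * ((p : ℤ_[p]) ^ e * ↑u) 
      = (p : ℤ_[p]) ^ (w - e) * (p : ℤ_[p]) ^ e * (↑u⁻¹ * ↑u) := by ring
    _ = _ := by rw [h5, mul_one]

open Classical in
/-- `t i = p^w / i` in the `p`-adic integers. -/
noncomputable def t (p : ℕ) [hp : Fact p.Prime] (w i : ℕ) : ℤ_[p] :=
  if h : ∃ t : ℤ_[p], t * i = (p : ℤ_[p]) ^ w then h.choose else 0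

lemma t_mul (w i : ℕ) (hi : 0 < i) (hi2 : i < p ^ (w + 1)) :
    t p w i * i = (p : ℤ_[p]) ^ w := by
  have h := exists_t (p := p) w i hi hi2
  unfold t
  rw [dif_pos h]
  exact h.choose_spec

noncomputable def r (p : ℕ) [hp : Fact p.Prime] (w : ℕ) : ℕ → ℤ_[p][X]
  | 0 => 1
  | i + 1 => r p w i * (C (t p w (i + 1)) * X - 1)

lemma r_eval (w i : ℕ) (hi : i + 1 < p ^ (w + 1)) (y : ℕ) :
    ((i : ℤ_[p]) + 1) * ((p ^ w * y).choose (i + 1) : ℕ) =
      (p : ℤ_[p]) ^ w * y * (r p w i).eval (y : ℤ_[p]) := by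
  induction i with
  | zero => simp [r]
  | succ i ih =>
    have ih := ih (by omega)
    have hne : ((i : ℤ_[p]) + 1) ≠ 0 := by exact_mod_cast Nat.succ_ne_zero i
    have ht := t_mul (p := p) w (i + 1) (by omega) (by omega)
    have hch : (((p ^ w * y).choose (i + 1 + 1) : ℕ) : ℤ_[p]) * ((i : ℤ_[p]) + 1 + 1) =
        (((p ^ w * y).choose (i + 1) : ℕ) : ℤ_[p]) * ((p : ℤ_[p]) ^ w * y - ((i : ℤ_[p]) + 1)) := by
      have h1 := Nat.choose_succ_right_eq (p ^ w * y) (i + 1)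
      rcases Nat.lt_or_ge (p ^ w * y) (i + 1) with h | h
      · rw [Nat.choose_eq_zero_of_lt h, Nat.choose_eq_zero_of_lt (by omega)]; simp
      · have h2 : (((p ^ w * y).choose (i + 1 + 1) * (i + 1 + 1) : ℕ) : ℤ_[p]) = (((p ^ w * y).choose (i + 1) * (p ^ w * y - (i + 1)) : ℕ) : ℤ_[p]) := by
          exact_mod_cast h1
        rw [Nat.cast_mul, Nat.cast_mul, Nat.cast_sub h] at h2
        push_cast at h2 ⊢
        exact h2
    rw [r, eval_mul]
    simp only [eval_sub, eval_mul, eval_C, eval_X, eval_one]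
    apply mul_left_cancel₀ hne
    push_cast at ht ⊢
    calc ((i : ℤ_[p]) + 1) * (((i : ℤ_[p]) + 1 + 1) * ((p ^ w * y).choose (i + 1 + 1) : ℕ))
        = ((i : ℤ_[p]) + 1) * ((((p ^ w * y).choose (i + 1 + 1) : ℕ) : ℤ_[p]) * ((i : ℤ_[p]) + 1 + 1)) := by ring
      _ = (((i : ℤ_[p]) + 1) * ((p ^ w * y).choose (i + 1) : ℕ)) * ((p : ℤ_[p]) ^ w * y - ((i : ℤ_[p]) + 1)) := by rw [hch]; ring
      _ = (p : ℤ_[p]) ^ w * y * (r p w i).eval (y : ℤ_[p]) * ((p : ℤ_[p]) ^ w * y - ((i : ℤ_[p]) + 1)) := by rw [ih]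
      _ = (p : ℤ_[p]) ^ w * y * (r p w i).eval (y : ℤ_[p]) * ((t p w (i + 1) * ((i : ℤ_[p]) + 1)) * y - ((i : ℤ_[p]) + 1)) := by rw [ht]
      _ = _ := by ring

noncomputable def c (p : ℕ) [hp : Fact p.Prime] (w : ℕ) : ℕ → ℤ_[p][X]
  | 0 => 1
  | i + 1 => C (t p w (i + 1)) * X * r p w i

lemma c_eval (w i : ℕ) (hi : i < p ^ (w + 1)) (y : ℕ) :
    (c p w i).eval (y : ℤ_[p]) = (((p ^ w * y).choose i : ℕ) : ℤ_[p]) := by
  cases i with
  | zero => simp [c]
  | succ i =>
    have hne : ((i : ℤ_[p]) + 1) ≠ 0 := by exact_mod_cast Nat.succ_ne_zero i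
    have ht := t_mul (p := p) w (i + 1) (by omega) (by omega)
    have h1 := r_eval (p := p) w i hi y
    rw [c]
    simp only [eval_mul, eval_C, eval_X]
    apply mul_left_cancel₀ hne
    push_cast at ht
    rw [h1]
    calc ((i : ℤ_[p]) + 1) * (t p w (i + 1) * y * (r p w i).eval (y : ℤ_[p])) 
        = (t p w (i + 1) * ((i : ℤ_[p]) + 1)) * y * (r p w i).eval (y : ℤ_[p]) := by ring
      _ = _ := by rw [ht]

/-- polynomial with `ca a K (y) = C(a + p^w y, K)` -/
noncomputable def ca (p : ℕ) [hp : Fact p.Prime] (w a K : ℕ) : ℤ_[p][X] :=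
  ∑ ij ∈ antidiagonal K, C ((a.choose ij.1 : ℕ) : ℤ_[p]) * c p w ij.2

lemma ca_eval (w a K : ℕ) (hK : K < p ^ (w + 1)) (y : ℕ) :
    (ca p w a K).eval (y : ℤ_[p]) = (((a + p ^ w * y).choose K : ℕ) : ℤ_[p]) := by
  rw [ca, eval_finsetSum, Nat.add_choose_eq]
  push_cast
  refine Finset.sum_congr rfl fun ij hij => ?_
  have := HasAntidiagonal.mem_antidiagonal.1 hij
  rw [eval_mul, eval_C, c_eval w ij.2 (by omega) y]

lemma ca_eq (w a K : ℕ) (hK : K < p ^ (w + 1)) :
    C ((K.factorial : ℕ) : ℤ_[p]) * ca p w a K =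
      (descPochhammer ℤ_[p] K).comp (C (a : ℤ_[p]) + C ((p : ℤ_[p]) ^ w) * X) := by
  apply Polynomial.eq_of_infinite_eval_eq
  have hinj : Function.Injective (fun y : ℕ => (y : ℤ_[p])) := Nat.cast_injective
  refine (Set.infinite_range_of_injective hinj).mono ?_
  rintro x ⟨y, rfl⟩
  simp only [Set.mem_ofPred_eq, eval_mul, eval_C, eval_comp, eval_add, eval_X]
  rw [ca_eval w a K hK y]
  have : ((a : ℤ_[p]) + (p : ℤ_[p]) ^ w * (y : ℤ_[p])) = ((a + p ^ w * y : ℕ) : ℤ_[p]) := by push_cast; ring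
  rw [this, descPochhammer_eval_eq_descFactorial, Nat.descFactorial_eq_factorial_mul_choose]
  push_cast; ring

lemma ca_eval_neg (w a K : ℕ) (hK : K < p ^ (w + 1)) (y m N : ℕ)
    (hN : a + p ^ w * y + (N + 1) = p ^ w * m) :
    (ca p w a K).eval ((y : ℤ_[p]) - m) = (-1) ^ K * (((N + K).choose K : ℕ) : ℤ_[p]) := by
  have h := congrArg (Polynomial.eval ((y : ℤ_[p]) - m)) (ca_eq (p := p) w a K hK)
  simp only [eval_mul, eval_C, eval_comp, eval_add, eval_X] at h
  have h2 : (a : ℤ_[p]) + (p : ℤ_[p]) ^ w * ((y : ℤ_[p]) - m) = -((N + 1 : ℕ) : ℤ_[p]) := by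
    have : ((a + p ^ w * y + (N + 1) : ℕ) : ℤ_[p]) = ((p ^ w * m : ℕ) : ℤ_[p]) := by rw [hN]
    push_cast at this ⊢
    linear_combination this
  rw [h2] at h
  have h3 := ascPochhammer_eval_neg_eq_descPochhammer ℤ_[p] (-((N + 1 : ℕ) : ℤ_[p])) K
  rw [neg_neg, ascPochhammer_nat_eq_natCast_ascFactorial, Nat.ascFactorial_eq_factorial_mul_choose] at h3
  have hne : ((K.factorial : ℕ) : ℤ_[p]) ≠ 0 := by exact_mod_cast K.factorial_ne_zero
  apply mul_left_cancel₀ hne
  rw [h]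
  have h4 : ((-1 : ℤ_[p]) ^ K) * (-1) ^ K = 1 := by rw [← mul_pow]; simp
  push_cast at h3
  calc (descPochhammer ℤ_[p] K).eval (-((N + 1 : ℕ) : ℤ_[p])) 
      = ((-1 : ℤ_[p]) ^ K * (-1) ^ K) * (descPochhammer ℤ_[p] K).eval (-((N + 1 : ℕ) : ℤ_[p])) := by rw [h4, one_mul]
    _ = (-1) ^ K * ((-1) ^ K * (descPochhammer ℤ_[p] K).eval (-((N : ℤ_[p]) + 1))) := by push_cast; ring
    _ = _ := by rw [← h3]; ring


/-- sum of a block polynomial -/
noncomputable def F (p : ℕ) [hp : Fact p.Prime] (w K L : ℕ) : ℤ_[p][X] :=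
  ∑ a ∈ range (p ^ w), (ca p w a K) ^ L

def S (K L n : ℕ) : ℕ := ∑ h ∈ range n, (h.choose K) ^ L

lemma sum_block (g : ℕ → ℤ_[p]) (P m : ℕ) :
    ∑ h ∈ range (P * m), g h = ∑ y ∈ range m, ∑ a ∈ range P, g (a + P * y) := by
  induction m with
  | zero => simp
  | succ m ih =>
    rw [Nat.mul_succ, Finset.sum_range_add, ih, Finset.sum_range_succ]
    congr 1
    refine Finset.sum_congr rfl fun a _ => ?_
    rw [add_comm]

/-- the boundary term -/
def R (K L n : ℕ) : ℕ := ∑ i ∈ range K, ((n + i).choose K) ^ L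

lemma S_add (K L n : ℕ) : S K L (n + K) = S K L n + R K L n := by
  unfold S R
  rw [Finset.sum_range_add]

lemma S_shift (K L n : ℕ) (hL : 0 < L) : ∑ h ∈ range n, ((h + K).choose K) ^ L = S K L (n + K) := by
  unfold S
  rw [add_comm n K, Finset.sum_range_add]
  rw [Finset.sum_eq_zero (s := range K)]
  · rw [zero_add]
    refine Finset.sum_congr rfl fun a _ => ?_
    rw [add_comm]
  · intro x hx
    rw [Nat.choose_eq_zero_of_lt (Finset.mem_range.1 hx), zero_pow hL.ne']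

lemma S_eq (w K L m : ℕ) (hK : K < p ^ (w + 1)) :
    (S K L (p ^ w * m) : ℤ_[p]) = ∑ y ∈ range m, (F p w K L).eval (y : ℤ_[p]) := by
  unfold S
  push_cast
  rw [sum_block]
  refine Finset.sum_congr rfl fun y _ => ?_
  rw [F, eval_finsetSum]
  refine Finset.sum_congr rfl fun a _ => ?_
  rw [eval_pow, ca_eval w a K hK y]

lemma main_id (w K L m : ℕ) (hK : K < p ^ (w + 1)) (hKo : Odd K) (hLo : Odd L) :
    2 * (S K L (p ^ w * m) : ℤ_[p]) + (R K L (p ^ w * m) : ℤ_[p]) =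
      ∑ y ∈ range m, ((F p w K L).eval (y : ℤ_[p]) - (F p w K L).eval ((y : ℤ_[p]) - m)) := by
  have h1 := S_eq (p := p) w K L m hK
  have h2 : (S K L (p ^ w * m + K) : ℤ_[p]) = - ∑ y ∈ range m, (F p w K L).eval ((y : ℤ_[p]) - m) := by
    rw [← S_shift K L _ hLo.pos, ← Finset.sum_range_reflect, ← Finset.sum_neg_distrib]
    push_cast
    rw [sum_block]
    refine Finset.sum_congr rfl fun y hy => ?_
    rw [F, eval_finsetSum, ← Finset.sum_neg_distrib]
    refine Finset.sum_congr rfl fun a ha => ?_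
    have hy := Finset.mem_range.1 hy
    have ha := Finset.mem_range.1 ha
    have hlt : a + p ^ w * y < p ^ w * m := by
      calc a + p ^ w * y < p ^ w + p ^ w * y := by omega
        _ = p ^ w * (y + 1) := by ring
        _ ≤ p ^ w * m := Nat.mul_le_mul_left _ hy
    rw [eval_pow, ca_eval_neg w a K hK y m (p ^ w * m - 1 - (a + p ^ w * y)) (by omega)]
    rw [mul_pow, ← pow_mul, (hKo.mul hLo).neg_one_pow]
    ring
  have h3 : (S K L (p ^ w * m + K) : ℤ_[p]) = S K L (p ^ w * m) + R K L (p ^ w * m) := by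
    rw [S_add]; push_cast; rfl
  rw [Finset.sum_sub_distrib, ← h1]
  have h4 : ∑ y ∈ range m, (F p w K L).eval ((y : ℤ_[p]) - m) = - (S K L (p ^ w * m + K) : ℤ_[p]) := by
    rw [h2]; ring
  rw [h4, h3]; ring

lemma R_dvd (w K L m : ℕ) (hK : K < p ^ (w + 1)) (hL : 3 ≤ L) :
    (m : ℤ_[p]) ^ 3 ∣ (R K L (p ^ w * m) : ℤ_[p]) := by
  unfold R
  push_cast
  refine Finset.dvd_sum fun i hi => ?_
  have hi := Finset.mem_range.1 hi
  refine dvd_trans (pow_dvd_pow _ hL) (pow_dvd_pow_of_dvd ?_ L)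
  have hpos : 0 < p ^ w := pow_pos hp.out.pos w
  have h1 : p ^ w * m + i = (i % p ^ w) + p ^ w * (m + i / p ^ w) := by
    have := Nat.mod_add_div i (p ^ w)
    rw [mul_add]; omega
  have h2 : i = (i % p ^ w) + p ^ w * (i / p ^ w) := (Nat.mod_add_div i (p ^ w)).symm
  have h3 : (((p ^ w * m + i).choose K : ℕ) : ℤ_[p]) = (ca p w (i % p ^ w) K).eval ((m + i / p ^ w : ℕ) : ℤ_[p]) := by
    rw [ca_eval w _ K hK, ← h1]
  have h4 : ((i.choose K : ℕ) : ℤ_[p]) = (ca p w (i % p ^ w) K).eval ((i / p ^ w : ℕ) : ℤ_[p]) := by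
    rw [ca_eval w _ K hK, ← h2]
  rw [Nat.choose_eq_zero_of_lt hi] at h4
  have h5 := Polynomial.sub_dvd_eval_sub ((m + i / p ^ w : ℕ) : ℤ_[p]) ((i / p ^ w : ℕ) : ℤ_[p]) (ca p w (i % p ^ w) K)
  rw [← h3, ← h4] at h5
  simpa using h5

/-- Lemma 1 -/
lemma sum_eval_dvd (e : ℕ) (Q : ℤ_[p][X]) (m : ℕ) (hm : p ^ e ∣ m) :
    (p : ℤ_[p]) ^ e ∣ p * ∑ y ∈ range m, Q.eval (y : ℤ_[p]) := by
  induction e generalizing m with
  | zero => simp
  | succ e ih =>
    obtain ⟨u, hu⟩ := hm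
    have hm2 : m = p ^ e * u * p := by rw [hu, pow_succ]; ring
    have ih := ih (p ^ e * u) (Dvd.intro _ rfl)
    set M := p ^ e * u with hM
    rw [hm2, sum_block]
    have h1 : (M : ℤ_[p]) ∣ ∑ y ∈ range p, ∑ a ∈ range M, Q.eval ((a + M * y : ℕ) : ℤ_[p]) - p * ∑ a ∈ range M, Q.eval (a : ℤ_[p]) := by
      have : (p : ℤ_[p]) * ∑ a ∈ range M, Q.eval (a : ℤ_[p]) = ∑ y ∈ range p, ∑ a ∈ range M, Q.eval (a : ℤ_[p]) := by
        simp
      rw [this, ← Finset.sum_sub_distrib]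
      refine Finset.dvd_sum fun y _ => ?_
      rw [← Finset.sum_sub_distrib]
      refine Finset.dvd_sum fun a _ => ?_
      have h5 := Polynomial.sub_dvd_eval_sub ((a + M * y : ℕ) : ℤ_[p]) (a : ℤ_[p]) Q
      refine dvd_trans ?_ h5
      push_cast
      exact ⟨y, by ring⟩
    obtain ⟨z, hz⟩ := h1
    obtain ⟨z', hz'⟩ := ih
    have h6 : ∑ y ∈ range p, ∑ a ∈ range M, Q.eval ((a + M * y : ℕ) : ℤ_[p]) = M * z + p * ∑ a ∈ range M, Q.eval (a : ℤ_[p]) := by
      rw [← hz]; ring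
    rw [h6]
    refine ⟨u * z + z', ?_⟩
    have h7 : (M : ℤ_[p]) = (p : ℤ_[p]) ^ e * u := by rw [hM]; push_cast; ring
    calc (p : ℤ_[p]) * (M * z + p * ∑ a ∈ range M, Q.eval (a : ℤ_[p])) 
        = p * (M * z) + p * (p * ∑ a ∈ range M, Q.eval (a : ℤ_[p])) := by ring
      _ = p * (M * z) + p * ((p : ℤ_[p]) ^ e * z') := by rw [hz']
      _ = _ := by rw [h7, pow_succ]; ring

/-- Taylor -/
lemma taylor_sum (Q : ℤ_[p][X]) (m : ℕ) :
    ∃ z : ℤ_[p], ∑ y ∈ range m, (Q.eval (y : ℤ_[p]) - Q.eval ((y : ℤ_[p]) - m)) =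
      m * ∑ y ∈ range m, (derivative Q).eval (y : ℤ_[p]) + (m : ℤ_[p]) ^ 2 * z := by
  have h : ∀ y : ℕ, ∃ k : ℤ_[p], Q.eval (y : ℤ_[p]) - Q.eval ((y : ℤ_[p]) - m) = m * (derivative Q).eval (y : ℤ_[p]) + (m : ℤ_[p]) ^ 2 * k := by
    intro y
    obtain ⟨k, hk⟩ := Polynomial.binomExpansion Q (y : ℤ_[p]) (-(m : ℤ_[p]))
    refine ⟨-k, ?_⟩
    rw [sub_eq_add_neg (y : ℤ_[p]) (m : ℤ_[p]), hk]; ring
  choose k hk using h
  refine ⟨∑ y ∈ range m, k y, ?_⟩
  rw [Finset.mul_sum, Finset.mul_sum, ← Finset.sum_add_distrib]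
  exact Finset.sum_congr rfl fun y _ => hk y

/-- General bound: `p^(2e) ∣ p * (2 S)` -/
lemma bound1 (w K L m e : ℕ) (hK : K < p ^ (w + 1)) (hKo : Odd K) (hLo : Odd L) (hL : 3 ≤ L)
    (hm : p ^ e ∣ m) (he : 1 ≤ e) :
    (p : ℤ_[p]) ^ (2 * e) ∣ p * (2 * (S K L (p ^ w * m) : ℤ_[p])) := by
  obtain ⟨z, hz⟩ := taylor_sum (F p w K L) m
  have h1 := main_id (p := p) w K L m hK hKo hLo
  obtain ⟨z', hz'⟩ := R_dvd (p := p) w K L m hK hL
  have h2 := sum_eval_dvd e (derivative (F p w K L)) m hm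
  rw [hz, hz'] at h1
  obtain ⟨q, hq⟩ := h2
  obtain ⟨u, hu⟩ := hm
  have hmu : (m : ℤ_[p]) = (p : ℤ_[p]) ^ e * u := by rw [hu]; push_cast; ring
  refine ⟨u * q + p * u ^ 2 * z - p * u ^ 2 * m * z', ?_⟩
  have h3 : 2 * (S K L (p ^ w * m) : ℤ_[p]) = m * ∑ y ∈ range m, (derivative (F p w K L)).eval (y : ℤ_[p]) + (m : ℤ_[p]) ^ 2 * z - (m : ℤ_[p]) ^ 3 * z' := by
    rw [← h1]; ring
  rw [h3]
  calc (p : ℤ_[p]) * (m * ∑ y ∈ range m, (derivative (F p w K L)).eval (y : ℤ_[p]) + (m : ℤ_[p]) ^ 2 * z - (m : ℤ_[p]) ^ 3 * z')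
      = m * (p * ∑ y ∈ range m, (derivative (F p w K L)).eval (y : ℤ_[p])) + p * (m : ℤ_[p]) ^ 2 * z - p * (m : ℤ_[p]) ^ 2 * m * z' := by ring
    _ = _ := by
      rw [hq]
      have h4 : (m : ℤ_[p]) ^ 2 = (p : ℤ_[p]) ^ (2 * e) * u ^ 2 := by rw [hmu]; ring
      rw [h4]
      have h5 : (m : ℤ_[p]) * ((p : ℤ_[p]) ^ e * q) = (p : ℤ_[p]) ^ (2 * e) * (u * q) := by rw [hmu]; ring
      rw [h5]; ring

/-- Bound when `F = p G` -/
lemma bound2 (w K L m e : ℕ) (G : ℤ_[p][X]) (hG : F p w K L = C (p : ℤ_[p]) * G)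
    (hK : K < p ^ (w + 1)) (hKo : Odd K) (hLo : Odd L) (hL : 3 ≤ L)
    (hm : p ^ e ∣ m) (he : 1 ≤ e) :
    (p : ℤ_[p]) ^ (2 * e) ∣ (2 * (S K L (p ^ w * m) : ℤ_[p])) := by
  obtain ⟨z, hz⟩ := taylor_sum G m
  have h1 := main_id (p := p) w K L m hK hKo hLo
  obtain ⟨z', hz'⟩ := R_dvd (p := p) w K L m hK hL
  have h2 := sum_eval_dvd e (derivative G) m hm
  rw [hz', hG] at h1
  simp only [eval_mul, eval_C, ← mul_sub, ← Finset.mul_sum] at h1
  rw [hz] at h1
  obtain ⟨q, hq⟩ := h2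
  obtain ⟨u, hu⟩ := hm
  have hmu : (m : ℤ_[p]) = (p : ℤ_[p]) ^ e * u := by rw [hu]; push_cast; ring
  refine ⟨u * q + p * u ^ 2 * z - u ^ 2 * m * z', ?_⟩
  have h3 : 2 * (S K L (p ^ w * m) : ℤ_[p]) = p * (m * ∑ y ∈ range m, (derivative G).eval (y : ℤ_[p]) + (m : ℤ_[p]) ^ 2 * z) - (m : ℤ_[p]) ^ 3 * z' := by
    rw [← h1]; ring
  rw [h3]
  calc (p : ℤ_[p]) * (m * ∑ y ∈ range m, (derivative G).eval (y : ℤ_[p]) + (m : ℤ_[p]) ^ 2 * z) - (m : ℤ_[p]) ^ 3 * z'
      = m * (p * ∑ y ∈ range m, (derivative G).eval (y : ℤ_[p])) + p * (m : ℤ_[p]) ^ 2 * z - (m : ℤ_[p]) ^ 2 * m * z' := by ring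
    _ = _ := by
      rw [hq]
      have h4 : (m : ℤ_[p]) ^ 2 = (p : ℤ_[p]) ^ (2 * e) * u ^ 2 := by rw [hmu]; ring
      rw [h4]
      have h5 : (m : ℤ_[p]) * ((p : ℤ_[p]) ^ e * q) = (p : ℤ_[p]) ^ (2 * e) * (u * q) := by rw [hmu]; ring
      rw [h5]; ring

/-- Bound when moreover the derivative sum is divisible -/
lemma bound3 (w K L m e : ℕ) (G : ℤ_[p][X]) (hG : F p w K L = C (p : ℤ_[p]) * G)
    (hK : K < p ^ (w + 1)) (hKo : Odd K) (hLo : Odd L) (hL : 3 ≤ L)
    (hm : p ^ e ∣ m) (he : 1 ≤ e)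
    (hd : (p : ℤ_[p]) ^ e ∣ ∑ y ∈ range m, (derivative G).eval (y : ℤ_[p])) :
    (p : ℤ_[p]) ^ (2 * e + 1) ∣ (2 * (S K L (p ^ w * m) : ℤ_[p])) := by
  obtain ⟨z, hz⟩ := taylor_sum G m
  have h1 := main_id (p := p) w K L m hK hKo hLo
  obtain ⟨z', hz'⟩ := R_dvd (p := p) w K L m hK hL
  rw [hz', hG] at h1
  simp only [eval_mul, eval_C, ← mul_sub, ← Finset.mul_sum] at h1
  rw [hz] at h1
  obtain ⟨q, hq⟩ := hd
  obtain ⟨u, hu⟩ := hm
  have hmu : (m : ℤ_[p]) = (p : ℤ_[p]) ^ e * u := by rw [hu]; push_cast; ring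
  obtain ⟨e', rfl⟩ : ∃ e', e = e' + 1 := ⟨e - 1, by omega⟩
  refine ⟨u * q + u ^ 2 * z - u ^ 3 * (p : ℤ_[p]) ^ e' * z', ?_⟩
  have h3 : 2 * (S K L (p ^ w * m) : ℤ_[p]) = p * (m * ∑ y ∈ range m, (derivative G).eval (y : ℤ_[p]) + (m : ℤ_[p]) ^ 2 * z) - (m : ℤ_[p]) ^ 3 * z' := by
    rw [← h1]; ring
  rw [h3, hq, hmu]
  ring

/-- Bound when `w = 0`-type: the derivative sum of `F` is divisible -/
lemma bound4 (w K L m e : ℕ)
    (hK : K < p ^ (w + 1)) (hKo : Odd K) (hLo : Odd L) (hL : 3 ≤ L)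
    (hm : p ^ e ∣ m) 
    (hd : (p : ℤ_[p]) ^ e ∣ ∑ y ∈ range m, (derivative (F p w K L)).eval (y : ℤ_[p])) :
    (p : ℤ_[p]) ^ (2 * e) ∣ (2 * (S K L (p ^ w * m) : ℤ_[p])) := by
  obtain ⟨z, hz⟩ := taylor_sum (F p w K L) m
  have h1 := main_id (p := p) w K L m hK hKo hLo
  obtain ⟨z', hz'⟩ := R_dvd (p := p) w K L m hK hL
  rw [hz', hz] at h1
  obtain ⟨q, hq⟩ := hd
  obtain ⟨u, hu⟩ := hm
  have hmu : (m : ℤ_[p]) = (p : ℤ_[p]) ^ e * u := by rw [hu]; push_cast; ring
  refine ⟨u * q + u ^ 2 * z - u ^ 3 * (p : ℤ_[p]) ^ e * z', ?_⟩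
  have h3 : 2 * (S K L (p ^ w * m) : ℤ_[p]) = (m * ∑ y ∈ range m, (derivative (F p w K L)).eval (y : ℤ_[p]) + (m : ℤ_[p]) ^ 2 * z) - (m : ℤ_[p]) ^ 3 * z' := by
    rw [← h1]; ring
  rw [h3, hq, hmu]
  ring


lemma sum_pow_dvd (e i : ℕ) (hi : ¬ (p - 1) ∣ i) (m : ℕ) (hm : p ^ e ∣ m) :
    (p : ℤ_[p]) ^ e ∣ ∑ y ∈ range m, (y : ℤ_[p]) ^ i := by
  -- a unit `g` with `g^i ≠ 1`
  obtain ⟨g, hg1, hg2⟩ : ∃ g : ℕ, ¬ p ∣ g ∧ ((g : ZMod p)) ^ i ≠ 1 := by
    by_contra hcon
    push Not at hcon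
    apply hi
    have h1 := (FiniteField.forall_pow_eq_one_iff (ZMod p) i).1 (by
      intro x
      ext
      have h2 := hcon (x : ZMod p).val (by
        intro hdvd
        have h3 : ((x : ZMod p).val : ZMod p) = 0 := (ZMod.natCast_eq_zero_iff _ _).2 hdvd
        rw [ZMod.natCast_zmod_val] at h3
        exact x.ne_zero h3)
      rw [ZMod.natCast_zmod_val] at h2
      simpa using h2)
    rwa [ZMod.card] at h1
  have hgu : IsUnit ((g : ℤ_[p]) ^ i - 1) := by
    have h1 : ¬ (p : ℤ) ∣ (g : ℤ) ^ i - 1 := by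
      intro h
      apply hg2
      have h2 := (ZMod.intCast_zmod_eq_zero_iff_dvd ((g : ℤ) ^ i - 1) p).2 h
      push_cast at h2
      exact sub_eq_zero.1 h2
    rw [PadicInt.isUnit_iff]
    by_contra hne
    apply h1
    have h3 : ‖(((g : ℤ) ^ i - 1 : ℤ) : ℤ_[p])‖ < 1 := by
      push_cast
      exact lt_of_le_of_ne (PadicInt.norm_le_one _) hne
    exact (PadicInt.norm_intCast_lt_one_iff).1 h3
  obtain ⟨u, hu⟩ := hm
  set P := p ^ e with hP
  have hPpos : 0 < P := pow_pos hp.out.pos e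
  have hcop : Nat.Coprime g P := by
    rw [hP]
    exact Nat.Coprime.pow_right e ((Nat.Prime.coprime_iff_not_dvd hp.out).2 hg1).symm
  -- the sum over one block
  have hblock : (P : ℤ_[p]) ∣ ∑ a ∈ range P, (a : ℤ_[p]) ^ i := by
    have hinj : Set.InjOn (fun a => g * a % P) (range P : Set ℕ) := by
      intro a ha b hb hab
      have ha := Finset.mem_range.1 (Finset.mem_coe.1 ha)
      have hb := Finset.mem_range.1 (Finset.mem_coe.1 hb)
      have h1 : g * a ≡ g * b [MOD P] := hab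
      have h2 := Nat.ModEq.cancel_left_of_coprime (hcop.symm) h1
      exact Nat.ModEq.eq_of_lt_of_lt h2 ha hb
    have himg : (range P).image (fun a => g * a % P) = range P := by
      apply Finset.eq_of_subset_of_card_le
      · intro x hx
        obtain ⟨a, _, rfl⟩ := Finset.mem_image.1 hx
        exact Finset.mem_range.2 (Nat.mod_lt _ hPpos)
      · rw [Finset.card_image_of_injOn hinj]
    have h1 : ∑ a ∈ range P, (a : ℤ_[p]) ^ i = ∑ a ∈ range P, ((g * a % P : ℕ) : ℤ_[p]) ^ i := by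
      conv_lhs => rw [← himg]
      rw [Finset.sum_image hinj]
    have h2 : (P : ℤ_[p]) ∣ ∑ a ∈ range P, ((g * a : ℕ) : ℤ_[p]) ^ i - ∑ a ∈ range P, ((g * a % P : ℕ) : ℤ_[p]) ^ i := by
      rw [← Finset.sum_sub_distrib]
      refine Finset.dvd_sum fun a _ => ?_
      refine dvd_trans ?_ (sub_dvd_pow_sub_pow _ _ i)
      refine ⟨((g * a / P : ℕ) : ℤ_[p]), ?_⟩
      have := Nat.mod_add_div (g * a) P
      have h3 : ((g * a : ℕ) : ℤ_[p]) = ((g * a % P + P * (g * a / P) : ℕ) : ℤ_[p]) := by rw [this]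
      rw [h3]
      push_cast
      ring
    rw [← h1] at h2
    have h3 : ∑ a ∈ range P, ((g * a : ℕ) : ℤ_[p]) ^ i - ∑ a ∈ range P, (a : ℤ_[p]) ^ i = ((g : ℤ_[p]) ^ i - 1) * ∑ a ∈ range P, (a : ℤ_[p]) ^ i := by
      rw [sub_mul, one_mul, Finset.mul_sum]
      congr 1
      refine Finset.sum_congr rfl fun a _ => ?_
      push_cast
      rw [mul_pow]
    rw [h3] at h2
    exact (hgu.dvd_mul_left).1 h2
  rw [hu, sum_block (fun y => (y : ℤ_[p]) ^ i)]
  have hPc : (P : ℤ_[p]) = (p : ℤ_[p]) ^ e := by rw [hP]; push_cast; rfl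
  rw [← hPc]
  have h4 : (P : ℤ_[p]) ∣ ∑ y ∈ range u, (∑ a ∈ range P, ((a + P * y : ℕ) : ℤ_[p]) ^ i - ∑ a ∈ range P, (a : ℤ_[p]) ^ i) := by
    refine Finset.dvd_sum fun y _ => ?_
    rw [← Finset.sum_sub_distrib]
    refine Finset.dvd_sum fun a _ => ?_
    refine dvd_trans ?_ (sub_dvd_pow_sub_pow _ _ i)
    exact ⟨y, by push_cast; ring⟩
  rw [Finset.sum_sub_distrib] at h4
  have h5 : (P : ℤ_[p]) ∣ ∑ y ∈ range u, ∑ a ∈ range P, (a : ℤ_[p]) ^ i :=
    Finset.dvd_sum fun y _ => hblock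
  have := dvd_add h4 h5
  rwa [sub_add_cancel] at this

lemma r_natDegree (w i : ℕ) : (r p w i).natDegree ≤ i := by
  induction i with
  | zero => simp [r]
  | succ i ih =>
    rw [r]
    refine (natDegree_mul_le).trans (add_le_add ih ?_)
    compute_degree

lemma c_natDegree (w i : ℕ) : (c p w i).natDegree ≤ i := by
  cases i with
  | zero => simp [c]
  | succ i =>
    rw [c]
    refine (natDegree_mul_le).trans ?_
    rw [add_comm]
    refine add_le_add (r_natDegree w i) ?_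
    compute_degree

lemma ca_natDegree (w a K : ℕ) : (ca p w a K).natDegree ≤ K := by
  rw [ca]
  refine natDegree_sum_le_of_forall_le _ _ fun ij hij => ?_
  have := HasAntidiagonal.mem_antidiagonal.1 hij
  refine (natDegree_C_mul_le _ _).trans ((c_natDegree w ij.2).trans (by omega))

lemma F_natDegree (w K L : ℕ) : (F p w K L).natDegree ≤ K * L := by
  rw [F]
  refine natDegree_sum_le_of_forall_le _ _ fun a _ => ?_
  refine (natDegree_pow_le).trans ?_
  rw [mul_comm]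
  exact Nat.mul_le_mul_right _ (ca_natDegree w a K)

/-- case `p > K L + 1` -/
lemma big_prime (K L n e : ℕ) (hKpos : 0 < K) (hLpos : 0 < L) (hpKL : K * L + 1 < p)
    (hKo : Odd K) (hLo : Odd L) (hL : 3 ≤ L) (hm : p ^ e ∣ n) :
    (p : ℤ_[p]) ^ (2 * e) ∣ (2 * (S K L n : ℤ_[p])) := by
  have hK : K < p ^ (0 + 1) := by
    rw [zero_add, pow_one]
    nlinarith
  have h := bound4 (p := p) 0 K L n e hK hKo hLo hL hm ?_
  · simpa using h
  have hdeg : (derivative (F p 0 K L)).natDegree < p - 1 := by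
    have h1 := natDegree_derivative_le (F p 0 K L)
    have h2 := F_natDegree (p := p) 0 K L
    have h3 : 0 < K * L := Nat.mul_pos hKpos hLpos
    omega
  have h1 : ∀ y : ℕ, (derivative (F p 0 K L)).eval (y : ℤ_[p]) = ∑ i ∈ range (p - 1), (derivative (F p 0 K L)).coeff i * (y : ℤ_[p]) ^ i := by
    intro y
    exact Polynomial.eval_eq_sum_range' hdeg _
  simp only [h1]
  rw [Finset.sum_comm]
  refine Finset.dvd_sum fun i hi => ?_
  rw [← Finset.mul_sum]
  refine Dvd.dvd.mul_left ?_ _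
  rcases Nat.eq_zero_or_pos i with rfl | hi0
  · simp only [pow_zero, Finset.sum_const, Finset.card_range, nsmul_eq_mul, mul_one]
    obtain ⟨u, hu⟩ := hm
    exact ⟨u, by rw [hu]; push_cast; ring⟩
  · have hi := Finset.mem_range.1 hi
    refine sum_pow_dvd e i ?_ n hm
    intro hd
    have := Nat.le_of_dvd hi0 hd
    omega

lemma t_dvd (w l : ℕ) (hl : 0 < l) (hl2 : l < p ^ w) : (p : ℤ_[p]) ∣ t p w l := by
  have hlt : l < p ^ (w + 1) := hl2.trans_le (Nat.pow_le_pow_right hp.out.pos (by omega))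
  have h1 := t_mul (p := p) w l hl hlt
  by_contra hnd
  have hu : IsUnit (t p w l) := by
    rw [PadicInt.isUnit_iff]
    by_contra hne
    apply hnd
    have h3 : ‖t p w l‖ < 1 := lt_of_le_of_ne (PadicInt.norm_le_one _) hne
    exact (PadicInt.norm_lt_one_iff_dvd _).1 h3
  have h4 : (p : ℤ_[p]) ^ w ∣ ((l : ℤ) : ℤ_[p]) := by
    rw [← h1]
    exact (hu.mul_left_dvd).2 (by push_cast; exact dvd_rfl)
  have h5 := (PadicInt.pow_p_dvd_int_iff w (l : ℤ)).1 h4
  have h6 : p ^ w ∣ l := by exact_mod_cast h5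
  exact absurd (Nat.le_of_dvd hl h6) (by omega)

lemma t_top (w : ℕ) : t p w (p ^ w) = 1 := by
  have h := t_mul (p := p) w (p ^ w) (pow_pos hp.out.pos w) (Nat.pow_lt_pow_right hp.out.one_lt (by omega))
  have hne : (p : ℤ_[p]) ^ w ≠ 0 := pow_ne_zero _ (by exact_mod_cast hp.out.ne_zero)
  push_cast at h
  apply mul_right_cancel₀ hne
  rw [h, one_mul]

/-- generic evaluation in a quotient: `r` -/
lemma r_mod {A : Type*} [CommRing A] (φ : ℤ_[p][X] →+* A) (w : ℕ)
    (h2 : ∀ l, 0 < l → l < p ^ w → ∀ l', 0 < l' → l' < p ^ w → φ (C (t p w l)) * φ (C (t p w l')) = 0) (i : ℕ) (hi : i < p ^ w) :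
    φ (r p w i) = (-1) ^ i * (1 - φ X * ∑ l ∈ range i, φ (C (t p w (l + 1)))) := by
  induction i with
  | zero => simp [r]
  | succ i ih =>
    rw [r, map_mul, ih (by omega), map_sub, map_mul, map_one, Finset.sum_range_succ]
    have h3 : (∑ l ∈ range i, φ (C (t p w (l + 1)))) * φ (C (t p w (i + 1))) = 0 := by
      rw [Finset.sum_mul]
      refine Finset.sum_eq_zero fun l hl => ?_
      have := Finset.mem_range.1 hl
      exact h2 (l + 1) (by omega) (by omega) (i + 1) (by omega) hi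
    rw [pow_succ]
    linear_combination (-(-1) ^ i * φ X ^ 2) * h3

/-- `ca a (p^w)` in a quotient where products of small `t`'s vanish. -/
lemma ca_mod {A : Type*} [CommRing A] (φ : ℤ_[p][X] →+* A) (w : ℕ) (hw : 1 ≤ w) (hp2 : p ≠ 2)
    (h2 : ∀ l, 0 < l → l < p ^ w → ∀ l', 0 < l' → l' < p ^ w → φ (C (t p w l)) * φ (C (t p w l')) = 0)
    (h3 : ∑ l ∈ range (p ^ w - 1), φ (C (t p w (l + 1))) = 0) (a : ℕ) (ha : a < p ^ w) :
    φ (ca p w a (p ^ w)) = φ X * (1 + ∑ l ∈ range (p ^ w - 1), (-1) ^ l * φ (C (t p w (l + 1))) * (a.choose (p ^ w - (l + 1)) : ℕ)) := by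
  have hodd : Odd p := hp.out.odd_of_ne_two hp2
  obtain ⟨M, hM⟩ : ∃ M, p ^ w = M + 1 := ⟨p ^ w - 1, by have := pow_pos hp.out.pos w; omega⟩
  have hMeven : Even M := by
    have h : Odd (M + 1) := hM ▸ hodd.pow
    rw [Nat.odd_add_one] at h
    simpa using h
  have htop : t p w (M + 1) = 1 := by rw [← hM]; exact t_top w
  have hrm : ∀ i < M + 1, φ (r p w i) = (-1) ^ i * (1 - φ X * ∑ l ∈ range i, φ (C (t p w (l + 1)))) := by
    intro i hi
    exact r_mod φ w h2 i (by rw [hM]; exact hi)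
  have h2' : ∀ l, 0 < l → l < M + 1 → ∀ l', 0 < l' → l' < M + 1 → φ (C (t p w l)) * φ (C (t p w l')) = 0 := by
    intro l hl1 hl2 l' hl3 hl4
    exact h2 l hl1 (by rw [hM]; exact hl2) l' hl3 (by rw [hM]; exact hl4)
  have h0 : a.choose (M + 1) = 0 := Nat.choose_eq_zero_of_lt (by rw [← hM]; exact ha)
  clear h2 ha
  rw [hM] at h3 ⊢
  simp only [Nat.add_sub_cancel] at h3 ⊢
  clear hM
  rw [ca, map_sum, Finset.Nat.sum_antidiagonal_eq_sum_range_succ_mk]
  have hstep : ∀ k ∈ range (M + 1).succ, φ (C ((a.choose (k, M + 1 - k).1 : ℕ) : ℤ_[p]) * c p w (k, M + 1 - k).2) = (fun k => ((a.choose k : ℕ) : A) * φ (c p w (M + 1 - k))) k := by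
    intro k _
    simp
  rw [Finset.sum_congr rfl hstep, ← Finset.sum_range_reflect]
  simp only [Nat.succ_eq_add_one, add_tsub_cancel_right]
  rw [Finset.sum_range_succ']
  simp only [Nat.sub_zero, h0, Nat.cast_zero, zero_mul, add_zero]
  rw [Finset.sum_range_succ]
  simp only [Nat.sub_self, Nat.choose_zero_right, Nat.cast_one, one_mul, Nat.sub_zero]
  have hlast : φ (c p w (M + 1)) = φ X := by
    rw [c, htop, map_mul, map_mul, hrm M (by omega), hMeven.neg_one_pow, h3]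
    simp
  rw [hlast, mul_add, mul_one, add_comm (φ X), Finset.mul_sum]
  congr 1
  refine Finset.sum_congr rfl fun l hl => ?_
  have hl := Finset.mem_range.1 hl
  have e1 : M + 1 - (M + 1 - (l + 1)) = l + 1 := by omega
  rw [e1, c, map_mul, map_mul, hrm l (by omega)]
  have h4 : φ (C (t p w (l + 1))) * (∑ l' ∈ range l, φ (C (t p w (l' + 1)))) = 0 := by
    rw [Finset.mul_sum]
    refine Finset.sum_eq_zero fun l' hl' => ?_
    have := Finset.mem_range.1 hl'
    exact h2' (l + 1) (by omega) (by omega) (l' + 1) (by omega) (by omega)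
  linear_combination (-((a.choose (M + 1 - (l + 1)) : ℕ) : A) * φ X ^ 2 * (-1) ^ l) * h4


lemma two_isUnit (hp2 : p ≠ 2) : IsUnit (2 : ℤ_[p]) := by
  have h : ¬ p ∣ 2 := fun h => hp2 ((Nat.prime_dvd_prime_iff_eq hp.out Nat.prime_two).1 h)
  have := natCast_isUnit (p := p) h
  exact_mod_cast this

lemma F_mod_p (w L : ℕ) (hw : 1 ≤ w) (hp2 : p ≠ 2) :
    ∃ G : ℤ_[p][X], F p w (p ^ w) L = C (p : ℤ_[p]) * G := by
  set I : Ideal ℤ_[p][X] := Ideal.span {C (p : ℤ_[p])} with hI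
  have hmem : C (p : ℤ_[p]) ∈ I := Ideal.subset_span rfl
  have ht : ∀ l, 0 < l → l < p ^ w → Ideal.Quotient.mk I (C (t p w l)) = 0 := by
    intro l h1 h2
    obtain ⟨q, hq⟩ := t_dvd (p := p) w l h1 h2
    rw [Ideal.Quotient.eq_zero_iff_mem, hq, C_mul]
    exact I.mul_mem_right _ hmem
  have hp0 : ((p : ℕ) : ℤ_[p][X] ⧸ I) = 0 := by
    have : ((p : ℕ) : ℤ_[p][X] ⧸ I) = Ideal.Quotient.mk I (C (p : ℤ_[p])) := by simp
    rw [this, Ideal.Quotient.eq_zero_iff_mem]; exact hmem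
  have hF : Ideal.Quotient.mk I (F p w (p ^ w) L) = 0 := by
    rw [F, map_sum]
    have : ∀ a ∈ range (p ^ w), Ideal.Quotient.mk I ((ca p w a (p ^ w)) ^ L) = (Ideal.Quotient.mk I X) ^ L := by
      intro a ha
      rw [map_pow, ca_mod (Ideal.Quotient.mk I) w hw hp2 ?_ ?_ a (Finset.mem_range.1 ha)]
      · congr 1
        rw [Finset.sum_eq_zero, add_zero, mul_one]
        intro l hl
        have := Finset.mem_range.1 hl
        rw [ht (l + 1) (by omega) (by omega)]
        ring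
      · intro l h1 h2 l' _ _
        rw [ht l h1 h2, zero_mul]
      · refine Finset.sum_eq_zero fun l hl => ?_
        have := Finset.mem_range.1 hl
        exact ht (l + 1) (by omega) (by omega)
    rw [Finset.sum_congr rfl this, Finset.sum_const, Finset.card_range, nsmul_eq_mul]
    push_cast
    rw [hp0, zero_pow (by omega), zero_mul]
  rw [Ideal.Quotient.eq_zero_iff_mem, hI, Ideal.mem_span_singleton] at hF
  exact hF

lemma harmonic (hp2 : p ≠ 2) : (p : ℤ_[p]) ^ 2 ∣ ∑ l ∈ range (p - 1), t p 1 (l + 1) := by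
  have hpp := hp.out.two_le
  have h1 : (p : ℤ_[p]) ^ 2 ∣ 2 * ∑ l ∈ range (p - 1), t p 1 (l + 1) := by
    have h2 : 2 * ∑ l ∈ range (p - 1), t p 1 (l + 1) = ∑ l ∈ range (p - 1), (t p 1 (l + 1) + t p 1 (p - 1 - l)) := by
      rw [Finset.sum_add_distrib, two_mul]
      congr 1
      rw [← Finset.sum_range_reflect]
      refine Finset.sum_congr rfl fun l hl => ?_
      have := Finset.mem_range.1 hl
      congr 1
      omega
    rw [h2]
    refine Finset.dvd_sum fun l hl => ?_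
    have hl := Finset.mem_range.1 hl
    have e1 := t_mul (p := p) 1 (l + 1) (by omega) (by rw [pow_succ, pow_one]; have : l + 1 < p := by omega
                                                       nlinarith)
    have e2 := t_mul (p := p) 1 (p - 1 - l) (by omega) (by rw [pow_succ, pow_one]; have : p - 1 - l < p := by omega
                                                           nlinarith)
    have hc1 : ((l + 1 : ℕ) : ℤ_[p]) + ((p - 1 - l : ℕ) : ℤ_[p]) = p := by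
      rw [← Nat.cast_add]; congr 1; omega
    have hu1 : IsUnit ((l + 1 : ℕ) : ℤ_[p]) := natCast_isUnit (fun h => by
      have := Nat.le_of_dvd (by omega) h; omega)
    have hu2 : IsUnit ((p - 1 - l : ℕ) : ℤ_[p]) := natCast_isUnit (fun h => by
      have := Nat.le_of_dvd (by omega) h; omega)
    have h3 : (p : ℤ_[p]) ^ 2 ∣ (((l + 1 : ℕ) : ℤ_[p]) * ((p - 1 - l : ℕ) : ℤ_[p])) * (t p 1 (l + 1) + t p 1 (p - 1 - l)) := by
      refine ⟨1, ?_⟩
      rw [pow_one] at e1 e2
      calc (((l + 1 : ℕ) : ℤ_[p]) * ((p - 1 - l : ℕ) : ℤ_[p])) * (t p 1 (l + 1) + t p 1 (p - 1 - l))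
          = ((p - 1 - l : ℕ) : ℤ_[p]) * (t p 1 (l + 1) * ((l + 1 : ℕ) : ℤ_[p])) + ((l + 1 : ℕ) : ℤ_[p]) * (t p 1 (p - 1 - l) * ((p - 1 - l : ℕ) : ℤ_[p])) := by ring
        _ = p * (((l + 1 : ℕ) : ℤ_[p]) + ((p - 1 - l : ℕ) : ℤ_[p])) := by rw [e1, e2]; ring
        _ = _ := by rw [hc1]; ring
    exact ((hu1.mul hu2).dvd_mul_left).1 h3
  exact ((two_isUnit hp2).dvd_mul_left).1 h1

lemma hockey (n k : ℕ) : ∑ a ∈ range n, a.choose k = n.choose (k + 1) := by
  induction n with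
  | zero => simp
  | succ n ih => rw [Finset.sum_range_succ, ih, Nat.choose_succ_succ]; ring

lemma F_mod_p2 (L : ℕ) (hp2 : p ≠ 2) :
    ∃ H : ℤ_[p][X], F p 1 p L = C (p : ℤ_[p]) * (C ((L : ℤ_[p]) + 1) * X ^ L + C (p : ℤ_[p]) * H) := by
  have hpp := hp.out.two_le
  set I : Ideal ℤ_[p][X] := Ideal.span {C ((p : ℤ_[p]) ^ 2)} with hI
  set φ := Ideal.Quotient.mk I with hφ
  have hmem : C ((p : ℤ_[p]) ^ 2) ∈ I := Ideal.subset_span rfl
  have hsq : ∀ x y : ℤ_[p], (p : ℤ_[p]) ∣ x → (p : ℤ_[p]) ∣ y → φ (C x) * φ (C y) = 0 := by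
    intro x y hx hy
    rw [← map_mul, ← C_mul, hφ, Ideal.Quotient.eq_zero_iff_mem]
    obtain ⟨x', rfl⟩ := hx
    obtain ⟨y', rfl⟩ := hy
    have : (p : ℤ_[p]) * x' * (p * y') = (p : ℤ_[p]) ^ 2 * (x' * y') := by ring
    rw [this, C_mul]
    exact I.mul_mem_right _ hmem
  have htd : ∀ l, 0 < l → l < p ^ 1 → (p : ℤ_[p]) ∣ t p 1 l := fun l h1 h2 => t_dvd 1 l h1 h2
  have h2 : ∀ l, 0 < l → l < p ^ 1 → ∀ l', 0 < l' → l' < p ^ 1 → φ (C (t p 1 l)) * φ (C (t p 1 l')) = 0 :=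
    fun l h1 h2 l' h3 h4 => hsq _ _ (htd l h1 h2) (htd l' h3 h4)
  have h3 : ∑ l ∈ range (p ^ 1 - 1), φ (C (t p 1 (l + 1))) = 0 := by
    rw [← map_sum, ← map_sum, pow_one, hφ, Ideal.Quotient.eq_zero_iff_mem]
    obtain ⟨q, hq⟩ := harmonic (p := p) hp2
    rw [hq, C_mul]
    exact I.mul_mem_right _ hmem
  have hpφ : ((p : ℕ) : ℤ_[p][X] ⧸ I) = φ (C (p : ℤ_[p])) := by simp
  have ht1 : t p 1 1 = p := by
    have := t_mul (p := p) 1 1 (by omega) (by rw [pow_succ, pow_one]; nlinarith)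
    simpa using this
  -- the linear forms mu
  set μ : ℕ → ℤ_[p][X] ⧸ I := fun a => ∑ l ∈ range (p ^ 1 - 1), (-1) ^ l * φ (C (t p 1 (l + 1))) * (a.choose (p ^ 1 - (l + 1)) : ℕ) with hμ
  have hμ2 : ∀ a, μ a * μ a = 0 := by
    intro a
    rw [hμ]
    simp only
    rw [Finset.sum_mul_sum]
    refine Finset.sum_eq_zero fun l hl => Finset.sum_eq_zero fun l' hl' => ?_
    have hl := Finset.mem_range.1 hl
    have hl' := Finset.mem_range.1 hl'
    have := h2 (l + 1) (by omega) (by omega) (l' + 1) (by omega) (by omega)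
    linear_combination ((-1) ^ l * (-1) ^ l' * ((a.choose (p ^ 1 - (l + 1)) : ℕ) : ℤ_[p][X] ⧸ I) * ((a.choose (p ^ 1 - (l' + 1)) : ℕ) : ℤ_[p][X] ⧸ I)) * this
  have hpow : ∀ a, ∀ n : ℕ, (1 + μ a) ^ n = 1 + n * μ a := by
    intro a n
    induction n with
    | zero => simp
    | succ n ih => rw [pow_succ, ih]; push_cast; linear_combination (n : ℤ_[p][X] ⧸ I) * hμ2 a
  have hsum : ∑ a ∈ range p, μ a = φ (C (p : ℤ_[p])) := by
    rw [hμ]
    simp only
    rw [Finset.sum_comm]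
    have hinner : ∀ l ∈ range (p ^ 1 - 1), ∑ a ∈ range p, (-1) ^ l * φ (C (t p 1 (l + 1))) * ((a.choose (p ^ 1 - (l + 1)) : ℕ) : ℤ_[p][X] ⧸ I) = if l = 0 then φ (C (p : ℤ_[p])) else 0 := by
      intro l hl
      have hl := Finset.mem_range.1 hl
      rw [← Finset.mul_sum, ← Nat.cast_sum]
      have hh : ∑ a ∈ range p, a.choose (p ^ 1 - (l + 1)) = p.choose (p ^ 1 - (l + 1) + 1) := hockey _ _
      rw [hh]
      by_cases hl0 : l = 0
      · subst hl0
        have : p ^ 1 - (0 + 1) + 1 = p := by rw [pow_one]; omega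
        rw [this, Nat.choose_self, zero_add, ht1]
        simp
      · rw [if_neg hl0]
        have hdvd : p ∣ p.choose (p ^ 1 - (l + 1) + 1) := by
          apply hp.out.dvd_choose_self
          · omega
          · rw [pow_one]; omega
        obtain ⟨q, hq⟩ := hdvd
        rw [hq]
        push_cast
        rw [hpφ]
        have := hsq (t p 1 (l + 1)) (p : ℤ_[p]) (htd _ (by omega) (by omega)) dvd_rfl
        linear_combination ((-1) ^ l * (q : ℤ_[p][X] ⧸ I)) * this
    rw [Finset.sum_congr rfl hinner, Finset.sum_ite_eq']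
    rw [if_pos (Finset.mem_range.2 (by rw [pow_one]; omega))]
  have hF : φ (F p 1 p L) = φ (C (p : ℤ_[p]) * (C ((L : ℤ_[p]) + 1) * X ^ L)) := by
    rw [F, map_sum]
    have : ∀ a ∈ range (p ^ 1), φ ((ca p 1 a p) ^ L) = (φ X) ^ L * (1 + L * μ a) := by
      intro a ha
      have h5 := ca_mod φ 1 le_rfl hp2 h2 h3 a (Finset.mem_range.1 ha)
      rw [map_pow]
      have h6 : ca p 1 a p = ca p 1 a (p ^ 1) := by rw [pow_one]
      rw [h6, h5, mul_pow]
      congr 1
      exact hpow a L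
    rw [Finset.sum_congr rfl this, ← Finset.mul_sum, Finset.sum_add_distrib, ← Finset.mul_sum]
    rw [pow_one, hsum, Finset.sum_const, Finset.card_range, nsmul_eq_mul, mul_one, hpφ]
    rw [map_mul, map_mul, map_pow, C_add, map_add]
    simp only [map_one, map_natCast]
    ring
  rw [hφ, Ideal.Quotient.eq, hI, Ideal.mem_span_singleton] at hF
  obtain ⟨H, hH⟩ := hF
  refine ⟨H, ?_⟩
  rw [sub_eq_iff_eq_add] at hH
  rw [hH, pow_two, C_mul]
  ring

/-- special case `K = p ≤ L < 2 p` (w = 1). -/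
lemma special (L m e : ℕ) (hp2 : p ≠ 2) (hLo : Odd L) (hL : 3 ≤ L) (hL1 : p ≤ L) (hL2 : L < 2 * p)
    (hm : p ^ e ∣ m) (he : 1 ≤ e) :
    (p : ℤ_[p]) ^ (2 * e + 1) ∣ (2 * (S p L (p ^ 1 * m) : ℤ_[p])) := by
  have hpp := hp.out.two_le
  have hpo : Odd p := hp.out.odd_of_ne_two hp2
  obtain ⟨H, hH⟩ := F_mod_p2 (p := p) L hp2
  refine bound3 1 p L m e _ hH (by rw [pow_succ, pow_one]; nlinarith) hpo hLo hL hm he ?_
  simp only [derivative_add, derivative_mul, derivative_C, zero_mul, zero_add, derivative_X_pow, eval_add, eval_mul, eval_C, eval_pow, eval_X]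
  rw [Finset.sum_add_distrib, ← Finset.mul_sum (range m) (fun y : ℕ => (derivative H).eval (y : ℤ_[p])) (p : ℤ_[p])]
  refine dvd_add ?_ (sum_eval_dvd e _ m hm)
  have h0 : ∑ x ∈ range m, ((L : ℤ_[p]) + 1) * ((L : ℤ_[p]) * (x : ℤ_[p]) ^ (L - 1)) = (((L : ℤ_[p]) + 1) * L) * ∑ x ∈ range m, (x : ℤ_[p]) ^ (L - 1) := by
    rw [Finset.mul_sum]
    exact Finset.sum_congr rfl fun x _ => by ring
  rw [h0]
  by_cases hd : (p - 1) ∣ (L - 1)
  · -- then p ∣ L (L+1)
    have h1 : p ∣ (L + 1) * L := by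
      obtain ⟨k, hk⟩ := hd
      have hk1 : k = 1 ∨ k = 2 := by
        have hk0 : k ≠ 0 := by rintro rfl; omega
        have hk3 : k < 3 := by
          by_contra hcon
          push Not at hcon
          have h5 : (p - 1) * 3 ≤ (p - 1) * k := Nat.mul_le_mul_left _ hcon
          omega
        omega
      rcases hk1 with rfl | rfl
      · have : L = p := by omega
        rw [this]; exact dvd_mul_left _ _
      · have : L + 1 = 2 * p := by omega
        rw [this]; exact ⟨2 * L, by ring⟩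
    obtain ⟨q, hq⟩ := h1
    have h2 : (((L : ℤ_[p]) + 1) * L) = q * p := by
      have : (((L + 1) * L : ℕ) : ℤ_[p]) = ((p * q : ℕ) : ℤ_[p]) := by rw [hq]
      push_cast at this
      rw [this]; ring
    rw [h2, mul_assoc]
    refine Dvd.dvd.mul_left ?_ _
    have := sum_eval_dvd e (X ^ (L - 1) : ℤ_[p][X]) m hm
    simpa using this
  · exact Dvd.dvd.mul_left (sum_pow_dvd e _ hd m hm) _


lemma natDvd (k x : ℕ) : (p : ℤ_[p]) ^ k ∣ (x : ℤ_[p]) ↔ p ^ k ∣ x := by
  have h := PadicInt.pow_p_dvd_int_iff (p := p) k (x : ℤ)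
  rw [Int.cast_natCast] at h
  rw [h]
  exact_mod_cast Iff.rfl

lemma odd_dvd (hp2 : p ≠ 2) (k x : ℕ) (h : (p : ℤ_[p]) ^ k ∣ 2 * (x : ℤ_[p])) : p ^ k ∣ x :=
  (natDvd k x).1 (((two_isUnit hp2).dvd_mul_left).1 h)

/-! ### digit sums -/

/-- base `p` digit sum -/
def ds (p n : ℕ) : ℕ := (p.digits n).sum

lemma hfac (n : ℕ) : (p - 1) * padicValNat p n.factorial + ds p n = n := by
  rw [sub_one_mul_padicValNat_factorial]
  have := Nat.digit_sum_le p n
  unfold ds
  omega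

lemma ds_add (a b : ℕ) : ds p (a + b) ≤ ds p a + ds p b := by
  have h1 := hfac (p := p) a
  have h2 := hfac (p := p) b
  have h3 := hfac (p := p) (a + b)
  have h4 : padicValNat p a.factorial + padicValNat p b.factorial ≤ padicValNat p (a + b).factorial := by
    rw [← padicValNat.mul a.factorial_ne_zero b.factorial_ne_zero]
    exact (padicValNat_dvd_iff_le (a + b).factorial_ne_zero).1 (dvd_trans pow_padicValNat_dvd (Nat.factorial_mul_factorial_dvd_factorial_add a b))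
  have h5 := Nat.mul_le_mul_left (p - 1) h4
  rw [mul_add] at h5
  omega

lemma ds_mulp (a : ℕ) : ds p (p * a) = ds p a := by
  have h1 := hfac (p := p) a
  have h2 := hfac (p := p) (p * a)
  rw [padicValNat_factorial_mul] at h2
  obtain ⟨q, hq⟩ : ∃ q, p = q + 1 := ⟨p - 1, by have := hp.out.pos; omega⟩
  have hq' : p - 1 = q := by omega
  rw [hq'] at h1 h2
  rw [mul_add] at h2
  have h3 : p * a = q * a + a := by rw [hq]; ring
  generalize q * padicValNat p a.factorial = x at *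
  omega

lemma ds_nmul (a d : ℕ) : ds p (a * d) ≤ ds p a * d := by
  induction d with
  | zero => simp [ds]
  | succ d ih =>
    rw [mul_add, mul_one, mul_add, mul_one]
    exact (ds_add _ _).trans (add_le_add ih le_rfl)

lemma ds_step (b : ℕ) : ds p b = ds p (b / p) + b % p := by
  unfold ds
  rcases Nat.eq_zero_or_pos b with rfl | hb
  · simp
  · rw [Nat.digits_def' hp.out.one_lt hb]
    simp [add_comm]

lemma ds_mul (a b : ℕ) : ds p (a * b) ≤ ds p a * ds p b := by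
  induction b using Nat.strong_induction_on with
  | _ b ih =>
    rcases Nat.eq_zero_or_pos b with rfl | hb
    · simp [ds]
    · have h1 : a * b = p * (a * (b / p)) + a * (b % p) := by
        conv_lhs => rw [← Nat.div_add_mod b p]
        ring
      rw [h1, ds_step b]
      refine (ds_add _ _).trans ?_
      rw [ds_mulp, mul_add]
      exact add_le_add (ih _ (Nat.div_lt_self hb hp.out.one_lt)) (ds_nmul _ _)

lemma ds_one (b : ℕ) (h : ds p b = 1) : ∃ j, b = p ^ j := by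
  induction b using Nat.strong_induction_on with
  | _ b ih =>
    rcases Nat.eq_zero_or_pos b with rfl | hb
    · simp [ds] at h
    · rw [ds_step b] at h
      rcases Nat.eq_zero_or_pos (b % p) with h0 | h0
      · have h2 : ds p (b / p) = 1 := by omega
        obtain ⟨j, hj⟩ := ih _ (Nat.div_lt_self hb hp.out.one_lt) h2
        refine ⟨j + 1, ?_⟩
        have := Nat.div_add_mod b p
        rw [h0, hj] at this
        rw [← this, pow_succ]; ring
      · have h2 : ds p (b / p) = 0 := by omega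
        have h3 : b / p = 0 := by
          by_contra hne
          have h4 := hfac (p := p) (b / p)
          rw [h2, add_zero] at h4
          rw [ds_step] at h2
          -- digit sum zero means zero
          have h5 : ∀ x : ℕ, 0 < x → 0 < ds p x := by
            intro x
            induction x using Nat.strong_induction_on with
            | _ x ihx =>
              intro hx
              rw [ds_step x]
              rcases Nat.eq_zero_or_pos (x % p) with h0 | h0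
              · have : 0 < x / p := by
                  apply Nat.div_pos _ hp.out.pos
                  exact Nat.le_of_dvd hx (Nat.dvd_of_mod_eq_zero h0)
                have := ihx _ (Nat.div_lt_self hx hp.out.one_lt) this
                omega
              · omega
          have h6 := h5 (b / p) (Nat.pos_of_ne_zero hne)
          rw [ds_step] at h6
          omega
        refine ⟨0, ?_⟩
        have := Nat.div_add_mod b p
        rw [h3] at this
        rw [pow_zero]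
        omega

lemma ds_pos (x : ℕ) (hx : 0 < x) : 0 < ds p x := by
  induction x using Nat.strong_induction_on with
  | _ x ihx =>
    rw [ds_step x]
    rcases Nat.eq_zero_or_pos (x % p) with h0 | h0
    · have : 0 < x / p := by
        apply Nat.div_pos _ hp.out.pos
        exact Nat.le_of_dvd hx (Nat.dvd_of_mod_eq_zero h0)
      have := ihx _ (Nat.div_lt_self hx hp.out.one_lt) this
      omega
    · omega

lemma ds_pow (w : ℕ) : ds p (p ^ w) = 1 := by
  induction w with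
  | zero =>
    rw [pow_zero]
    unfold ds
    rw [Nat.digits_of_lt p 1 one_ne_zero hp.out.one_lt]
    simp
  | succ w ih => rw [pow_succ, mul_comm, ds_mulp, ih]

lemma ds_parity (hp2 : p ≠ 2) (K : ℕ) (hK : Odd K) : Odd (ds p K) := by
  have hpo : Odd p := hp.out.odd_of_ne_two hp2
  have h := Nat.modEq_digits_sum 2 p (Nat.odd_iff.1 hpo) K
  have h1 := Nat.odd_iff.1 hK
  unfold ds
  rw [Nat.odd_iff]
  have : K % 2 = (p.digits K).sum % 2 := h
  omega

/-- key valuation bound -/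
lemma val_M (K L M : ℕ) (hM : M * (K.factorial) ^ L = (K * L).factorial) :
    ds p K * padicValNat p L.factorial ≤ padicValNat p M := by
  have hM0 : M ≠ 0 := by
    rintro rfl
    rw [zero_mul] at hM
    exact (K * L).factorial_ne_zero hM.symm
  have h1 : padicValNat p M + L * padicValNat p K.factorial = padicValNat p (K * L).factorial := by
    rw [← hM, padicValNat.mul hM0 (pow_ne_zero _ K.factorial_ne_zero), padicValNat.pow]
  have h2 := hfac (p := p) K
  have h3 := hfac (p := p) L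
  have h4 := hfac (p := p) (K * L)
  have h5 := ds_mul (p := p) K L
  rw [← h1] at h4
  obtain ⟨q, hq⟩ : ∃ q, p = q + 2 := ⟨p - 2, by have := hp.out.two_le; omega⟩
  have hq' : p - 1 = q + 1 := by omega
  rw [hq'] at h2 h3 h4
  set vM := padicValNat p M
  set vK := padicValNat p K.factorial
  set vL := padicValNat p L.factorial
  set sK := ds p K
  set sL := ds p L
  have h6 : (q + 1) * (sK * vL) ≤ (q + 1) * vM := by
    nlinarith [h2, h3, h4, h5]
  exact Nat.le_of_mul_le_mul_left h6 (Nat.succ_pos q)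

lemma val_fac_ge (w L : ℕ) (h : p ^ w ≤ L) : w ≤ padicValNat p L.factorial := by
  apply (padicValNat_dvd_iff_le L.factorial_ne_zero).1
  exact Nat.dvd_factorial (pow_pos hp.out.pos w) h

lemma val_fac_mono (a b : ℕ) (h : a ≤ b) : padicValNat p a.factorial ≤ padicValNat p b.factorial :=
  (padicValNat_dvd_iff_le b.factorial_ne_zero).1 (dvd_trans pow_padicValNat_dvd (Nat.factorial_dvd_factorial h))

lemma val_fac_pow (w : ℕ) : (p - 1) * padicValNat p (p ^ w).factorial + 1 = p ^ w := by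
  have := hfac (p := p) (p ^ w)
  rwa [ds_pow] at this

lemma val_fac_ge2 (hp3 : 3 ≤ p) (w L : ℕ) (hw : 2 ≤ w) (h : p ^ w ≤ L) : 2 * w ≤ padicValNat p L.factorial := by
  refine le_trans ?_ (val_fac_mono _ _ h)
  have h1 := val_fac_pow (p := p) w
  have h2 : ∀ w, 2 ≤ w → (p - 1) * (2 * w) + 1 ≤ p ^ w := by
    intro w hw
    induction w, hw using Nat.le_induction with
    | base =>
      obtain ⟨q, rfl⟩ : ∃ q, p = q + 3 := ⟨p - 3, by omega⟩
      have : q + 3 - 1 = q + 2 := by omega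
      rw [this]; nlinarith
    | succ w hw ih =>
      rw [pow_succ]
      obtain ⟨q, hq⟩ : ∃ q, p = q + 3 := ⟨p - 3, by omega⟩
      have h5 : p - 1 = q + 2 := by omega
      rw [h5] at ih ⊢
      have h6 : p ^ w * 3 ≤ p ^ w * p := Nat.mul_le_mul_left _ hp3
      nlinarith
  have h3 := h2 w hw
  have h4 : (p - 1) * (2 * w) ≤ (p - 1) * padicValNat p (p ^ w).factorial := by omega
  exact Nat.le_of_mul_le_mul_left h4 (by omega)

end padic

/-! ### the prefactor -/

/-- The prefactor `C`, with `K = 2k+1`, `L = 2m+1`. -/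
def Cf (K L : ℕ) : ℕ := (K * L + 1).factorial / K.factorial ^ L

lemma exists_M (K L : ℕ) : ∃ M, M * K.factorial ^ L = (K * L).factorial := by
  have h := Nat.prod_factorial_dvd_factorial_sum (range L) (fun _ => K)
  simp only [Finset.prod_const, Finset.card_range, Finset.sum_const, smul_eq_mul] at h
  obtain ⟨M, hM⟩ := h
  exact ⟨M, by rw [mul_comm K L, hM]; ring⟩

lemma Cf_eq (K L M : ℕ) (hM : M * K.factorial ^ L = (K * L).factorial) : Cf K L = (K * L + 1) * M := by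
  unfold Cf
  rw [Nat.factorial_succ, ← hM, ← mul_assoc]
  exact Nat.mul_div_cancel _ (pow_pos K.factorial_pos L)

lemma Cf_mul (K L : ℕ) : Cf K L * K.factorial ^ L = (K * L + 1).factorial := by
  obtain ⟨M, hM⟩ := exists_M K L
  rw [Cf_eq K L M hM, Nat.factorial_succ, ← hM]; ring

section
variable {p : ℕ} [hp : Fact p.Prime]

lemma dvd_Cf_of_val (K L c : ℕ) (h : ∀ M, M * K.factorial ^ L = (K * L).factorial → c ≤ padicValNat p M) :
    p ^ c ∣ Cf K L := by
  obtain ⟨M, hM⟩ := exists_M K L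
  have hM0 : M ≠ 0 := by
    rintro rfl
    rw [zero_mul] at hM
    exact (K * L).factorial_ne_zero hM.symm
  rw [Cf_eq K L M hM]
  exact Dvd.dvd.mul_left ((padicValNat_dvd_iff_le hM0).2 (h M hM)) _

lemma T1 (K L w : ℕ) (hp2 : p ≠ 2) (hKo : Odd K) (hK3 : 3 ≤ K) (hKL : K ≤ L) (hw : p ^ w ≤ K) (hKw : K < p ^ (w + 1))
    (hnp : ∀ j, K ≠ p ^ j) (hle : p ≤ K * L + 1) : p ^ (2 * w + 1) ∣ Cf K L := by
  rcases Nat.eq_zero_or_pos w with rfl | hw0
  · -- p > K
    rw [zero_add, pow_one] at hKw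
    rw [mul_zero, zero_add, pow_one]
    have h1 : p ∣ Cf K L * K.factorial ^ L := by
      rw [Cf_mul]
      exact (hp.out.dvd_factorial).2 hle
    rcases (hp.out.dvd_mul).1 h1 with h | h
    · exact h
    · exfalso
      have := (hp.out.dvd_factorial).1 (hp.out.dvd_of_dvd_pow h)
      omega
  · apply dvd_Cf_of_val
    intro M hM
    have h1 := val_M (p := p) K L M hM
    have h2 : w ≤ padicValNat p L.factorial := val_fac_ge w L (hw.trans hKL)
    have h3 : 3 ≤ ds p K := by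
      have h4 := ds_parity (p := p) hp2 K hKo
      have h5 : ds p K ≠ 1 := fun h => by
        obtain ⟨j, hj⟩ := ds_one K h
        exact hnp j hj
      rcases h4 with ⟨q, hq⟩
      omega
    have h6 : 3 * w ≤ ds p K * padicValNat p L.factorial := Nat.mul_le_mul h3 h2
    omega

lemma T2 (L w : ℕ) (hp2 : p ≠ 2) (hw0 : 1 ≤ w) (hKL : p ^ w ≤ L) (h2 : 2 ≤ w ∨ 2 * p ≤ L) :
    p ^ (2 * w) ∣ Cf (p ^ w) L := by
  have hp3 : 3 ≤ p := by have := hp.out.two_le; omega
  apply dvd_Cf_of_val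
  intro M hM
  have h1 := val_M (p := p) (p ^ w) L M hM
  rw [ds_pow, one_mul] at h1
  refine le_trans ?_ h1
  rcases h2 with h2 | h2
  · exact val_fac_ge2 hp3 w L h2 hKL
  · by_cases hw2 : 2 ≤ w
    · exact val_fac_ge2 hp3 w L hw2 hKL
    · have hw1 : w = 1 := by omega
      subst hw1
      refine le_trans ?_ (val_fac_mono _ _ h2)
      rw [mul_comm 2 p, padicValNat_factorial_mul]
      omega

lemma T3 (L : ℕ) (hL1 : p ≤ L) : p ∣ Cf p L := by
  have h := dvd_Cf_of_val (p := p) p L 1 ?_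
  · simpa using h
  intro M hM
  have h1 := val_M (p := p) p L M hM
  have h2 : ds p p = 1 := by have := ds_pow (p := p) 1; simpa using this
  rw [h2, one_mul] at h1
  refine le_trans ?_ h1
  exact val_fac_ge 1 L (by simpa using hL1)

end

lemma T4 (K L w : ℕ) (hKo : Odd K) (hLo : Odd L) (hK3 : 3 ≤ K) (hKL : K ≤ L) (hw : 2 ^ w ≤ K) (hKw : K < 2 ^ (w + 1)) :
    2 ^ (2 * w + 2) ∣ Cf K L := by
  have : Fact (Nat.Prime 2) := ⟨Nat.prime_two⟩
  obtain ⟨M, hM⟩ := exists_M K L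
  have hM0 : M ≠ 0 := by
    rintro rfl
    rw [zero_mul] at hM
    exact (K * L).factorial_ne_zero hM.symm
  have h1 := val_M (p := 2) K L M hM
  have h2 : 2 ≤ ds 2 K := by
    have h4 := ds_pos (p := 2) K (by omega)
    have h5 : ds 2 K ≠ 1 := fun h => by
      obtain ⟨j, hj⟩ := ds_one K h
      rcases Nat.eq_zero_or_pos j with rfl | hj0
      · omega
      · rw [hj] at hKo
        exact (Nat.not_even_iff_odd.2 hKo) ((Nat.even_pow.2 ⟨even_two, by omega⟩))
    omega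
  have h3 : 2 ∣ K * L + 1 := by
    have := hKo.mul hLo
    exact (Odd.add_one this).two_dvd
  by_cases h33 : K = 3 ∧ L = 3
  · obtain ⟨rfl, rfl⟩ := h33
    have hw1 : w = 1 := by
      by_contra hne
      rcases Nat.lt_or_gt_of_ne hne with h | h
      · have : w = 0 := by omega
        subst this; norm_num at hKw
      · have h5 : 2 ^ 2 ≤ 2 ^ w := Nat.pow_le_pow_right (by norm_num) h
        omega
    subst hw1
    decide +kernel
  have h4 : w + 1 ≤ padicValNat 2 L.factorial := by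
    have hw1 : 1 ≤ w := by
      by_contra hne
      have : w = 0 := by omega
      subst this; norm_num at hKw; omega
    rcases Nat.lt_or_ge w 2 with hw2 | hw2
    · have hw1 : w = 1 := by omega
      subst hw1
      have hK : K = 3 := by
        rcases hKo with ⟨q, hq⟩
        norm_num at hKw
        omega
      have hL4 : 4 ≤ L := by
        rcases hLo with ⟨q, hq⟩
        omega
      refine le_trans ?_ (val_fac_mono _ _ hL4)
      have := val_fac_pow (p := 2) 2
      norm_num at this ⊢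
      omega
    · have h5 : 2 ^ w ≤ L := hw.trans hKL
      refine le_trans ?_ (val_fac_mono _ _ h5)
      have h6 := val_fac_pow (p := 2) w
      have h7 : w + 2 ≤ 2 ^ w := by
        induction w, hw2 using Nat.le_induction with
        | base => norm_num
        | succ w hw ih =>
          have : ∀ w, 2 ≤ w → w + 2 ≤ 2 ^ w := by
            intro w hw
            induction w, hw using Nat.le_induction with
            | base => norm_num
            | succ w hw ih => rw [pow_succ]; omega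
          exact this _ (by omega)
      omega
  have h5 : 2 * (w + 1) ≤ ds 2 K * padicValNat 2 L.factorial := Nat.mul_le_mul h2 h4
  rw [Cf_eq K L M hM]
  have h6 : 2 ^ (2 * (w + 1)) ∣ M := (padicValNat_dvd_iff_le hM0).2 (h5.trans h1)
  have : 2 * w + 2 = 2 * (w + 1) := by ring
  rw [this]
  exact Dvd.dvd.mul_left h6 _

lemma prime_power (p K L n e : ℕ) (hp : p.Prime) (hKo : Odd K) (hLo : Odd L) (hK3 : 3 ≤ K) (hKL : K ≤ L)
    (he : p ^ e ∣ n) : p ^ (2 * e) ∣ Cf K L * S K L n := by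
  have : Fact p.Prime := ⟨hp⟩
  have hL3 : 3 ≤ L := hK3.trans hKL
  by_cases hbig : K * L + 1 < p
  · have hp2 : p ≠ 2 := by
      rintro rfl
      nlinarith
    exact Dvd.dvd.mul_left (odd_dvd hp2 _ _ (big_prime K L n e (by omega) (by omega) hbig hKo hLo hL3 he)) _
  push Not at hbig
  obtain ⟨w, hw, hKw⟩ : ∃ w, p ^ w ≤ K ∧ K < p ^ (w + 1) :=
    ⟨Nat.log p K, Nat.pow_log_le_self p (by omega), Nat.lt_pow_succ_log_self hp.one_lt K⟩
  by_cases hew : w < e
  · -- n = p^w m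
    obtain ⟨m, hm⟩ : p ^ w ∣ n := dvd_trans (pow_dvd_pow p hew.le) he
    have hm2 : p ^ (e - w) ∣ m := by
      have h1 : p ^ w * p ^ (e - w) ∣ p ^ w * m := by
        rw [← pow_add, ← hm]
        have : w + (e - w) = e := by omega
        rw [this]; exact he
      exact Nat.dvd_of_mul_dvd_mul_left (pow_pos hp.pos w) h1
    by_cases hp2 : p = 2
    · subst hp2
      have h1 := bound1 (p := 2) w K L m (e - w) hKw hKo hLo hL3 hm2 (by omega)
      rw [← hm] at h1
      have h2 : 2 ^ (2 * (e - w)) ∣ 4 * S K L n := by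
        apply (natDvd (p := 2) _ _).1
        have : (((4 * S K L n : ℕ)) : ℤ_[2]) = ((2 : ℕ) : ℤ_[2]) * (2 * (S K L n : ℤ_[2])) := by push_cast; ring
        rw [this]; exact h1
      obtain ⟨q, hq⟩ := T4 K L w hKo hLo hK3 hKL hw hKw
      obtain ⟨s, hs⟩ := h2
      refine ⟨q * s, ?_⟩
      have h3 : 2 * e = 2 * w + 2 * (e - w) := by omega
      rw [h3, pow_add]
      calc Cf K L * S K L n = 2 ^ (2 * w) * q * (4 * S K L n) := by rw [hq, pow_add]; ring
        _ = _ := by rw [hs]; ring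
    · by_cases hpow : ∃ j, K = p ^ j
      · -- K = p^w
        obtain ⟨j, hj⟩ := hpow
        have hjw : j = w := by
          rw [hj] at hw hKw
          have h1 := (Nat.pow_le_pow_iff_right hp.one_lt).1 hw
          have h2 := (Nat.pow_lt_pow_iff_right hp.one_lt).1 hKw
          omega
        subst hjw
        have hw1 : 1 ≤ j := by
          by_contra hne
          have : j = 0 := by omega
          subst this
          rw [pow_zero] at hj
          omega
        by_cases hsp : j = 1 ∧ L < 2 * p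
        · obtain ⟨rfl, hLp⟩ := hsp
          rw [pow_one] at hj
          subst hj
          have h1 := special (p := K) L m (e - 1) hp2 hLo hL3 hKL hLp hm2 (by omega)
          rw [← hm] at h1
          have h2 := odd_dvd hp2 _ _ h1
          obtain ⟨q, hq⟩ := T3 (p := K) L hKL
          obtain ⟨s, hs⟩ := h2
          refine ⟨q * s, ?_⟩
          have h3 : 2 * e = 1 + (2 * (e - 1) + 1) := by omega
          rw [hq, hs, h3, pow_add, pow_one]
          ring
        · obtain ⟨G, hG⟩ := F_mod_p (p := p) j L hw1 hp2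
          have h1 := bound2 (p := p) j (p ^ j) L m (e - j) G hG (hj ▸ hKw) (hj ▸ hKo) hLo hL3 hm2 (by omega)
          rw [← hm, ← hj] at h1
          have h2 := odd_dvd hp2 _ _ h1
          have h4 : 2 ≤ j ∨ 2 * p ≤ L := by
            by_contra hcon
            push Not at hcon
            exact hsp ⟨by omega, hcon.2⟩
          obtain ⟨q, hq⟩ := T2 (p := p) L j hp2 hw1 (hj ▸ hKL) h4
          rw [← hj] at hq
          obtain ⟨s, hs⟩ := h2
          refine ⟨q * s, ?_⟩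
          have h3 : 2 * e = 2 * j + 2 * (e - j) := by omega
          rw [h3, pow_add, hq, hs]; ring
      · push Not at hpow
        have h1 := bound1 (p := p) w K L m (e - w) hKw hKo hLo hL3 hm2 (by omega)
        rw [← hm] at h1
        have h2 : p ^ (2 * (e - w)) ∣ p * S K L n := by
          apply odd_dvd hp2
          have : (2 : ℤ_[p]) * (((p * S K L n : ℕ)) : ℤ_[p]) = (p : ℤ_[p]) * (2 * (S K L n : ℤ_[p])) := by push_cast; ring
          rw [this]; exact h1
        obtain ⟨q, hq⟩ := T1 K L w hp2 hKo hK3 hKL hw hKw hpow hbig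
        obtain ⟨s, hs⟩ := h2
        refine ⟨q * s, ?_⟩
        have h3 : 2 * e = 2 * w + 2 * (e - w) := by omega
        rw [h3, pow_add]
        calc Cf K L * S K L n = p ^ (2 * w) * q * (p * S K L n) := by rw [hq, pow_add]; ring
          _ = _ := by rw [hs]; ring
  · push Not at hew
    rcases Nat.eq_zero_or_pos e with rfl | he0
    · simp
    have hpe : p ^ (2 * e) ∣ p ^ (2 * w) := pow_dvd_pow p (by omega)
    by_cases hp2 : p = 2
    · subst hp2
      exact Dvd.dvd.mul_right (hpe.trans ((pow_dvd_pow 2 (by omega)).trans (T4 K L w hKo hLo hK3 hKL hw hKw))) _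
    · by_cases hpow : ∃ j, K = p ^ j
      · obtain ⟨j, hj⟩ := hpow
        have hjw : j = w := by
          rw [hj] at hw hKw
          have h1 := (Nat.pow_le_pow_iff_right hp.one_lt).1 hw
          have h2 := (Nat.pow_lt_pow_iff_right hp.one_lt).1 hKw
          omega
        subst hjw
        by_cases hsp : j = 1 ∧ L < 2 * p
        · obtain ⟨rfl, hLp⟩ := hsp
          have he1 : e = 1 := by omega
          subst he1
          obtain ⟨m, hm⟩ : p ^ 1 ∣ n := he
          obtain ⟨G, hG⟩ := F_mod_p (p := p) 1 L le_rfl hp2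
          have h1 := S_eq (p := p) 1 K L m hKw
          rw [← hm, hj, hG] at h1
          simp only [Polynomial.eval_mul, Polynomial.eval_C, ← Finset.mul_sum] at h1
          have h2 : p ^ 1 ∣ S (p ^ 1) L n := by
            apply (natDvd (p := p) _ _).1
            rw [h1, pow_one]
            exact dvd_mul_right _ _
          have h2' : p ^ 1 ∣ S K L n := by rw [hj]; exact h2
          have h3 : p ∣ Cf K L := by
            rw [pow_one] at hj
            rw [hj]
            exact T3 (p := p) L (hj ▸ hKL)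
          have : 2 * 1 = 1 + 1 := rfl
          rw [this, pow_add]
          exact mul_dvd_mul (by simpa using h3) h2'
        · have h4 : 2 ≤ j ∨ 2 * p ≤ L := by
            by_contra hcon
            push Not at hcon
            exact hsp ⟨by omega, hcon.2⟩
          have hq := T2 (p := p) L j hp2 (by omega) (hj ▸ hKL) h4
          rw [← hj] at hq
          exact Dvd.dvd.mul_right (hpe.trans hq) _
      · push Not at hpow
        have hq := T1 K L w hp2 hKo hK3 hKL hw hKw hpow hbig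
        exact Dvd.dvd.mul_right (hpe.trans ((pow_dvd_pow p (by omega)).trans hq)) _

/-- **Main theorem.** For all positive integers `m, n, k` with `m ≥ k`, put `K = 2k+1`, `L = 2m+1`.
Then `(K!)^L` divides `(K L + 1)!` and `n^2` divides
`((K L + 1)! / (K!)^L) * ∑_{h < n} C(h, K)^L`. -/
theorem result (m n k : ℕ) (hm : 0 < m) (hn : 0 < n) (hk : 0 < k) (hkm : k ≤ m) :
    ((2 * k + 1).factorial) ^ (2 * m + 1) ∣ ((2 * k + 1) * (2 * m + 1) + 1).factorial ∧
    n ^ 2 ∣ (((2 * k + 1) * (2 * m + 1) + 1).factorial / ((2 * k + 1).factorial) ^ (2 * m + 1)) *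
      ∑ h ∈ Finset.range n, (h.choose (2 * k + 1)) ^ (2 * m + 1) := by
  constructor
  · exact ⟨_, ((mul_comm _ _).trans (Cf_mul (2 * k + 1) (2 * m + 1))).symm⟩
  · rw [Nat.dvd_iff_prime_pow_dvd_dvd]
    intro p j hp hj
    have : Fact p.Prime := ⟨hp⟩
    have h1 := prime_power p (2 * k + 1) (2 * m + 1) n (padicValNat p n) hp ⟨k, rfl⟩ ⟨m, rfl⟩ (by omega) (by omega) pow_padicValNat_dvd
    refine dvd_trans ?_ h1
    apply pow_dvd_pow
    have h2 := (padicValNat_dvd_iff_le (p := p) (pow_ne_zero 2 hn.ne')).1 hj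
    rw [padicValNat.pow] at h2
    exact h2

end Pool.Agent.Results.MP_32607b_nt.OddPowerSums
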